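import Pool.Agent.H.MP_fd63cb_lc.Pot

namespace Pool.Agent.H.MP_fd63cb_lc

open Finset Filter Topology

def ex (t : ℕ) : ℕ := t.unpair.2.unpair.1

theorem ex_le (t : ℕ) : ex t ≤ t := (Nat.unpair_left_le _).trans (Nat.unpair_right_le _)

def mass (Y : ℕ → ℕ) (L : List ℕ) (s y : ℕ) : ℕ :=
  L.foldr (fun l r => (if Y l = y then 2 ^ (s - ex l) else 0) + r) 0

variable {ι : Type} [Fintype ι] (P : ι → ℕ → ℕ) (b : ℕ → ℕ)

def trg (L : List ℕ) (t c : ℕ) : Bool :=
  decide ((∏ i, mass (P i) (t :: L) t (P i t)) * 2 ^ c < 2 ^ (t * Fintype.card ι))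

def st (t : ℕ) : List ℕ := Nat.rec [] (fun t L => cond (trg P L t (b t)) (t :: L) L) t

noncomputable def wt (t : ℕ) : ℝ := cond (trg P (st P b t) t (b t)) ((1 / 2) ^ ex t) 0

theorem wt_nonneg (t) : 0 ≤ wt P b t := by
  unfold wt
  cases trg P (st P b t) t (b t) <;> simp

theorem pow_ex {t s : ℕ} (h : t ≤ s) : (2 : ℝ) ^ (s - ex t) = 2 ^ s * (1 / 2) ^ ex t := by
  rw [pow_sub₀ _ two_ne_zero ((ex_le t).trans h), one_div, inv_pow]

theorem mass_st (Y : ℕ → ℕ) (s y t) (h : t ≤ s + 1) :
    (mass Y (st P b t) s y : ℝ) = 2 ^ s * m (wt P b) Y t y := by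
  induction t with
  | zero => simp [st, mass, m]
  | succ t ih =>
    have e : st P b (t + 1) = cond (trg P (st P b t) t (b t)) (t :: st P b t) (st P b t) := rfl
    rw [m, sum_range_succ, ← m, mul_add, ← ih (by omega), e, wt]
    cases trg P (st P b t) t (b t)
    · simp
    · simp only [mass, cond_true, List.foldr_cons]
      split_ifs
      · push_cast
        rw [pow_ex (by omega), add_comm]
      · simp

theorem trg_iff (t) : trg P (st P b t) t (b t) = true ↔
    (∏ i, (m (wt P b) (P i) t (P i t) + (1 / 2) ^ ex t)) * 2 ^ b t < 1 := by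
  have h : ∀ i, (mass (P i) (t :: st P b t) t (P i t) : ℝ) =
      2 ^ t * (m (wt P b) (P i) t (P i t) + (1 / 2) ^ ex t) := fun i => by
    rw [mul_add, ← mass_st P b _ _ _ _ (Nat.le_succ t), ← pow_ex le_rfl]
    simp [mass, add_comm]
  rw [trg, decide_eq_true_iff, ← Nat.cast_lt (α := ℝ)]
  push_cast
  simp only [h, prod_mul_distrib, prod_const, card_univ, ← pow_mul, mul_assoc]
  exact mul_lt_iff_lt_one_right (by positivity)

theorem prim_pow : Primrec fun n : ℕ => 2 ^ n :=
  (Primrec₂.unpaired'.1 Nat.Primrec.pow).comp (Primrec.const 2) Primrec.id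

theorem prim_ex : Primrec ex :=
  Primrec.fst.comp (Primrec.unpair.comp (Primrec.snd.comp Primrec.unpair))

theorem prim_mass {α : Type} [Primcodable α] {Y : ℕ → ℕ} (hY : Primrec Y) {L : α → List ℕ}
    {s y : α → ℕ} (hL : Primrec L) (hs : Primrec s) (hy : Primrec y) :
    Primrec fun a => mass Y (L a) (s a) (y a) := by
  have h1 : Primrec fun p : α × ℕ × ℕ => p.2.1 := Primrec.fst.comp Primrec.snd
  exact Primrec.list_foldr hL (Primrec.const 0) (h := fun a p =>
    (if Y p.1 = y a then 2 ^ (s a - ex p.1) else 0) + p.2) (Primrec.nat_add.comp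
      (Primrec.ite (Primrec.eq.comp (hY.comp h1) (hy.comp Primrec.fst))
        (prim_pow.comp (Primrec.nat_sub.comp (hs.comp Primrec.fst) (prim_ex.comp h1)))
        (Primrec.const 0)) (Primrec.snd.comp Primrec.snd))

theorem prim_prod {α κ : Type} [Primcodable α] (F : κ → α → ℕ) (h : ∀ i, Primrec (F i))
    (s : Finset κ) : Primrec fun a => ∏ i ∈ s, F i a := by
  induction s using Finset.cons_induction with
  | empty => simpa using Primrec.const 1
  | cons i s hi ih => simpa only [prod_cons] using Primrec.nat_mul.comp (h i) ih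

theorem comp_sum {α κ : Type} [Primcodable α] (F : κ → α → ℕ) (h : ∀ i, Computable (F i))
    (s : Finset κ) : Computable fun a => ∑ i ∈ s, F i a := by
  induction s using Finset.cons_induction with
  | empty => simpa using Computable.const 0
  | cons i s hi ih => simpa only [sum_cons] using Primrec.nat_add.to_comp.comp (h i) ih

theorem prim_trg (hP : ∀ i, Primrec (P i)) :
    Primrec fun p : List ℕ × ℕ × ℕ => trg P p.1 p.2.1 p.2.2 := by
  have h1 : Primrec fun p : List ℕ × ℕ × ℕ => p.2.1 := Primrec.fst.comp Primrec.snd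
  exact (Primrec.nat_lt.comp (Primrec.nat_mul.comp (prim_prod _ (fun i => prim_mass (hP i)
    (Primrec.list_cons.comp h1 Primrec.fst) h1 ((hP i).comp h1)) _)
    (prim_pow.comp (Primrec.snd.comp Primrec.snd)))
    (prim_pow.comp (Primrec.nat_mul.comp h1 (Primrec.const _)))).decide

theorem comp_st (hP : ∀ i, Primrec (P i)) (hb : Computable b) : Computable (st P b) := by
  have h1 : Computable fun p : ℕ × ℕ × List ℕ => p.2.1 := Computable.fst.comp Computable.snd
  have h2 : Computable fun p : ℕ × ℕ × List ℕ => p.2.2 := Computable.snd.comp Computable.snd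
  have h3 := (prim_trg P hP).to_comp.comp (h2.pair (h1.pair (hb.comp h1)))
  have h4 := Computable.cond h3 (Primrec.list_cons.to_comp.comp h1 h2) h2
  have h5 : Computable₂ fun (_ : ℕ) (p : ℕ × List ℕ) =>
    cond (trg P p.2 p.1 (b p.1)) (p.1 :: p.2) p.2 := h4.of_eq fun _ => rfl
  exact (Computable.nat_rec Computable.id (Computable.const []) h5).of_eq fun _ => rfl

def Semi (K : ℕ → ℕ) : Prop :=
  (∃ f : ℕ → ℕ → ℕ, Computable₂ f ∧ ∀ x, (∀ t, K x ≤ f x t) ∧ ∃ t, f x t = K x) ∧
    Summable (fun x => (1 / 2 : ℝ) ^ K x) ∧ ∑' x, (1 / 2 : ℝ) ^ K x ≤ 1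

theorem coding (hP : ∀ i, Primrec (P i)) (hb : Computable b) {Y : ℕ → ℕ} (hY : Primrec Y)
    (h1 : ∀ t, ∑ l ∈ range t, wt P b l ≤ 1) :
    ∃ K, Semi K ∧ ∀ t y, m (wt P b) Y t y ≤ 4 * (1 / 2) ^ K y := by
  let f : ℕ → ℕ → ℕ := fun y t => cond (decide (2 ^ (t.unpair.2 + 1) ≤
    mass Y (st P b t.unpair.2) t.unpair.2 y * 2 ^ t.unpair.1)) t.unpair.1 (y + 2)
  have hf : ∀ y k s, f y (Nat.pair k s) = if 2 * (1 / 2) ^ k ≤ m (wt P b) Y s y then k else y + 2 := by
    intro y k s
    simp only [f, Nat.unpair_pair, Bool.cond_decide]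
    congr 1
    rw [← Nat.cast_le (α := ℝ)]
    push_cast
    rw [mass_st P b _ _ _ _ (Nat.le_succ s), pow_succ, mul_assoc,
      mul_le_mul_iff_right₀ (by positivity), one_div, inv_pow, ← div_eq_mul_inv,
      div_le_iff₀ (by positivity)]
  have hm : ∀ t (s : Finset ℕ), ∑ y ∈ s, m (wt P b) Y t y ≤ 1 := fun t s => by
    simp only [m]
    rw [sum_comm]
    refine (sum_le_sum fun l _ => ?_).trans (h1 t)
    rw [sum_ite_eq]
    split_ifs
    exacts [le_rfl, wt_nonneg P b l]
  have mono : ∀ y, Monotone fun t => m (wt P b) Y t y := fun y s t h =>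
    sum_le_sum_of_subset_of_nonneg (range_mono h) fun l _ _ => by
      split_ifs
      exacts [wt_nonneg P b l, le_rfl]
  have hK : ∀ y, ∃ t, f y t = sInf (Set.range (f y)) := fun y => Nat.sInf_mem (Set.range_nonempty _)
  have hs : ∀ s : Finset ℕ, ∑ y ∈ s, (1 / 2 : ℝ) ^ sInf (Set.range (f y)) ≤ 1 := by
    intro s
    choose T hT using hK
    have h2 : ∀ y ∈ s, (1 / 2 : ℝ) ^ sInf (Set.range (f y)) ≤
        m (wt P b) Y (s.sup T) y / 2 + (1 / 2) ^ y / 4 := by
      intro y hy
      rw [← hT, ← Nat.pair_unpair (T y), hf]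
      have := m_nonneg (wt_nonneg P b) Y (s.sup T) y
      split_ifs with c
      · have := mono y ((Nat.unpair_right_le _).trans (le_sup (f := T) hy))
        have : (0 : ℝ) ≤ (1 / 2) ^ y := by positivity
        linarith
      · rw [pow_add]
        linarith
    have h3 := sum_le_sum h2
    rw [sum_add_distrib, ← sum_div, ← sum_div] at h3
    have h4 := summable_geometric_two.sum_le_tsum s fun _ _ => by positivity
    rw [tsum_geometric_two] at h4
    linarith [hm (s.sup T) s]
  refine ⟨fun y => sInf (Set.range (f y)), ⟨⟨f, ?_, fun y => ⟨fun t => Nat.sInf_le ⟨t, rfl⟩, hK y⟩⟩,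
    summable_of_sum_le (fun _ => by positivity) hs, Real.tsum_le_of_sum_le (fun _ => by positivity) hs⟩,
    fun t y => ?_⟩
  · have a1 : Primrec fun p : ℕ × ℕ => p.2.unpair.1 :=
      Primrec.fst.comp (Primrec.unpair.comp Primrec.snd)
    have a2 : Primrec fun p : ℕ × ℕ => p.2.unpair.2 :=
      Primrec.snd.comp (Primrec.unpair.comp Primrec.snd)
    have a3 : Primrec fun q : (ℕ × ℕ) × List ℕ => decide (2 ^ (q.1.2.unpair.2 + 1) ≤
        mass Y q.2 q.1.2.unpair.2 q.1.1 * 2 ^ q.1.2.unpair.1) :=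
      (Primrec.nat_le.comp (prim_pow.comp (Primrec.succ.comp (a2.comp Primrec.fst)))
        (Primrec.nat_mul.comp (prim_mass hY Primrec.snd (a2.comp Primrec.fst)
          (Primrec.fst.comp Primrec.fst)) (prim_pow.comp (a1.comp Primrec.fst)))).decide
    have a4 := a3.to_comp.comp (Computable.id.pair ((comp_st P b hP hb).comp a2.to_comp))
    exact (Computable.cond a4 a1.to_comp
      (Primrec.nat_add.comp Primrec.fst (Primrec.const 2)).to_comp).of_eq fun _ => rfl
  · by_contra hc
    push Not at hc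
    have h2 := hm t {y}
    rw [sum_singleton] at h2
    rcases e : sInf (Set.range (f y)) with _ | k
    · rw [e] at hc
      linarith
    · have := Nat.sInf_le (s := Set.range (f y)) ⟨Nat.pair k t, rfl⟩
      rw [e, pow_succ] at hc
      rw [hf, if_pos (by linarith)] at this
      omega

theorem core {X κ : Type} [Primcodable X] [Inhabited X] [Fintype κ] [Nonempty ι]
    (π : ι → X → ℕ) (σ : κ → X → ℕ) (hπ : ∀ i, Primrec (π i)) (hσ : ∀ j, Primrec (σ j))
    (H : ∀ (x : ℕ → X) (t : ℕ) (v : ℕ → ℝ), (∀ l, 0 ≤ v l) → ∑ l ∈ range t, v l = 1 →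
      ∑ j, G v (σ j ∘ x) t ≤ ∑ i, G v (π i ∘ x) t)
    (K : ℕ → ℕ) (hK : Semi K) (hO : ∀ K', Semi K' → ∃ c, ∀ x, K x ≤ K' x + c) :
    ∃ c, ∀ x, ∑ i, K (π i x) ≤ ∑ j, K (σ j x) + c := by
  obtain ⟨⟨f, hf, h1⟩, h2, h3⟩ := hK
  let g : ℕ → ℕ → ℕ := fun y t => Nat.rec (f y 0) (fun s r => min r (f y (s + 1))) t
  have g0 : Computable₂ fun (a : ℕ × ℕ) (p : ℕ × ℕ) => min p.2 (f a.1 (p.1 + 1)) :=
    (Primrec.nat_min.to_comp.comp (Computable.snd.comp Computable.snd) (hf.comp
      (Computable.fst.comp Computable.fst) (Computable.succ.comp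
        (Computable.fst.comp Computable.snd)))).of_eq fun _ => rfl
  have g1 : Computable₂ g := (Computable.nat_rec Computable.snd
    (hf.comp Computable.fst (Computable.const 0)) g0).of_eq fun _ => rfl
  have g2 : ∀ y t, K y ≤ g y t := fun y t => by
    induction t with
    | zero => exact (h1 y).1 0
    | succ t ih => exact le_min ih ((h1 y).1 _)
  have g3 : ∀ y, ∀ᶠ t in atTop, g y t ≤ K y := fun y => by
    obtain ⟨s, hs⟩ := (h1 y).2
    refine eventually_atTop.2 ⟨s, fun t ht => ?_⟩
    induction ht with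
    | refl => cases s with
      | zero => exact hs.le
      | succ s => exact (min_le_right _ _).trans hs.le
    | step _ ih => exact (min_le_left _ _).trans ih
  let pt : ℕ → X := fun t => (Encodable.decode t.unpair.1).getD default
  have p1 : Primrec pt :=
    Primrec.option_getD_default.comp (Primrec.decode.comp (Primrec.fst.comp Primrec.unpair))
  let b : ℕ → ℕ := fun t => ∑ j, g (σ j (pt t)) t + 2 * Fintype.card ι
  have hb : Computable b := Primrec.nat_add.to_comp.comp (comp_sum _ (fun j =>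
    g1.comp ((hσ j).comp p1).to_comp Computable.id) _) (Computable.const _)
  let P : ι → ℕ → ℕ := fun i => π i ∘ pt
  have hP : ∀ i, Primrec (P i) := fun i => (hπ i).comp p1
  have hw := wt_nonneg P b
  have tot := total hw P (fun j => σ j ∘ pt) (H pt) (fun y => (1 / 2) ^ K y) (fun _ => by positivity)
    (fun s => (h2.sum_le_tsum s fun _ _ => by positivity).trans h3) fun l hl => by
      have e : trg P (st P b l) l (b l) = true := by
        by_contra c
        simp [wt, Bool.eq_false_iff.2 c] at hl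
      have e2 : wt P b l = (1 / 2) ^ ex l := by simp [wt, e]
      have := ((trg_iff P b l).1 e).le
      have e3 : ∀ i, m (wt P b) (P i) (l + 1) (P i l) = m (wt P b) (P i) l (P i l) + (1 / 2) ^ ex l :=
        fun i => by rw [m, sum_range_succ, if_pos rfl, e2, m]
      simp only [e3, prod_pow_eq_pow_sum, Function.comp]
      rw [one_div_pow (2 : ℝ) (∑ _, _), le_div_iff₀ (by positivity), mul_assoc,
        show (4 : ℝ) = 2 ^ 2 by norm_num, ← pow_mul, ← pow_add]
      refine le_trans ?_ this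
      gcongr
      · exact prod_nonneg fun i _ => add_nonneg (m_nonneg hw _ _ _) (by positivity)
      · norm_num
      · rw [add_comm]
        exact add_le_add (sum_le_sum fun j _ => g2 _ _) le_rfl
  choose K' k1 k2 using fun i => coding P b hP hb (hP i) tot
  choose c hc using fun i => hO _ (k1 i)
  refine ⟨4 * Fintype.card ι + ∑ i, c i, fun x => ?_⟩
  have key : 1 ≤ (∏ i, (4 * (1 / 2 : ℝ) ^ K' i (π i x))) *
      2 ^ (∑ j, K (σ j x) + 2 * Fintype.card ι) := by
    by_contra hlt
    push Not at hlt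
    have t1 : Tendsto (fun j : ℕ => (∏ i, (4 * (1 / 2 : ℝ) ^ K' i (π i x) + (1 / 2) ^ j)) *
        2 ^ (∑ j, K (σ j x) + 2 * Fintype.card ι)) atTop (𝓝 ((∏ i, (4 * (1 / 2 : ℝ) ^ K' i (π i x) +
          0)) * 2 ^ (∑ j, K (σ j x) + 2 * Fintype.card ι))) :=
      (tendsto_finsetProd _ fun i _ => tendsto_const_nhds.add
        (tendsto_pow_atTop_nhds_zero_of_lt_one (by norm_num) (by norm_num))).mul_const _
    simp only [add_zero] at t1
    obtain ⟨j, hj⟩ := (t1.eventually (gt_mem_nhds hlt)).exists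
    have t2 := (summable_of_sum_range_le hw tot).tendsto_atTop_zero.eventually
      (gt_mem_nhds (show (0 : ℝ) < (1 / 2) ^ j by positivity))
    obtain ⟨N, hN⟩ := eventually_atTop.1 (t2.and (eventually_all.2 fun j => g3 (σ j x)))
    obtain ⟨t, ht⟩ : ∃ t, t = Nat.pair (Encodable.encode x) (Nat.pair j N) := ⟨_, rfl⟩
    obtain ⟨n1, n2⟩ := hN t (ht ▸ (Nat.right_le_pair _ _).trans (Nat.right_le_pair _ _))
    have e1 : pt t = x := by simp [pt, ht]
    have e2 : ex t = j := by simp [ex, ht]
    have : trg P (st P b t) t (b t) = true := by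
      refine (trg_iff P b t).2 (lt_of_le_of_lt ?_ hj)
      simp only [P, b, Function.comp, e1, e2]
      gcongr with i _ j
      · exact fun i _ => add_nonneg (m_nonneg hw _ _ _) (by positivity)
      · exact k2 i _ _
      · norm_num
      · exact n2 j
    simp [wt, this, e2] at n1
  rw [prod_mul_distrib, prod_const, prod_pow_eq_pow_sum, card_univ, one_div, inv_pow,
    show (4 : ℝ) = 2 ^ 2 by norm_num, ← pow_mul, mul_right_comm, ← pow_add, ← div_eq_mul_inv,
    one_le_div (by positivity), pow_le_pow_iff_right₀ one_lt_two] at key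
  have := sum_le_sum (s := univ) fun i _ => hc i (π i x)
  rw [sum_add_distrib] at this
  omega

end Pool.Agent.H.MP_fd63cb_lc
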