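import Mathlib

namespace Pool.Agent.H.MP_fd63cb_lc

open Finset

noncomputable def m (w : ℕ → ℝ) (Y : ℕ → ℕ) (t y : ℕ) : ℝ := ∑ l ∈ range t, if Y l = y then w l else 0

noncomputable def G (w : ℕ → ℝ) (Y : ℕ → ℕ) (t : ℕ) : ℝ := ∑ l ∈ range t, w l * Real.log (m w Y t (Y l))

variable {w : ℕ → ℝ} (hw : ∀ l, 0 ≤ w l) (Y : ℕ → ℕ)
include hw

theorem m_nonneg (t y) : 0 ≤ m w Y t y := sum_nonneg fun l _ => by split_ifs; exacts [hw l, le_rfl]

theorem le_m {t l} (h : l < t) : w l ≤ m w Y t (Y l) := by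
  simpa [m] using single_le_sum (f := fun k => if Y k = Y l then w k else 0)
    (fun k _ => by split_ifs; exacts [hw k, le_rfl]) (mem_range.2 h)

theorem pot (t : ℕ) : G w Y t - ∑ l ∈ range t, w l ≤
    ∑ l ∈ range t, w l * Real.log (m w Y (l + 1) (Y l)) := by
  induction t with
  | zero => simp [G]
  | succ t ih =>
    rw [G, sum_range_succ, sum_range_succ, sum_range_succ]
    have h1 : ∑ l ∈ range t, w l * Real.log (m w Y (t + 1) (Y l)) = G w Y t +
        m w Y t (Y t) * (Real.log (m w Y t (Y t) + w t) - Real.log (m w Y t (Y t))) := by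
      nth_rw 1 [m]
      rw [G, sum_mul, ← sum_add_distrib]
      refine sum_congr rfl fun l _ => ?_
      by_cases c : Y l = Y t
      · simp only [c, m, sum_range_succ, if_true]
        ring
      · simp [c, Ne.symm c, m, sum_range_succ]
    have h2 : m w Y t (Y t) * (Real.log (m w Y t (Y t) + w t) - Real.log (m w Y t (Y t))) ≤ w t := by
      rcases (m_nonneg hw Y t (Y t)).eq_or_lt with c | c
      · simp [← c, hw]
      have := hw t
      rw [← Real.log_div (by positivity) c.ne']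
      refine (mul_le_mul_of_nonneg_left (Real.log_le_sub_one_of_pos (by positivity)) c.le).trans_eq ?_
      field_simp
      ring
    linarith

theorem gibbs (q : ℕ → ℝ) (hq : ∀ y, 0 < q y) (hs : ∀ s : Finset ℕ, ∑ y ∈ s, q y ≤ 1) (t : ℕ)
    (M : ℝ) (hM : ∑ l ∈ range t, w l = M) (h0 : 0 < M) :
    ∑ l ∈ range t, w l * Real.log (q (Y l)) ≤ G w Y t - M * Real.log M := by
  have h1 : ∀ l ∈ range t, w l * Real.log (q (Y l)) ≤ w l * Real.log (m w Y t (Y l)) -
      w l * Real.log M + (M * (w l * (q (Y l) / m w Y t (Y l))) - w l) := by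
    intro l hl
    rcases (hw l).eq_or_lt with c | c
    · simp [← c]
    have h2 := c.trans_le (le_m hw Y (mem_range.1 hl))
    have h3 := hq (Y l)
    have := Real.log_le_sub_one_of_pos (x := M * (q (Y l) / m w Y t (Y l))) (by positivity)
    rw [Real.log_mul h0.ne' (by positivity), Real.log_div h3.ne' h2.ne'] at this
    nlinarith
  have h2 : ∑ l ∈ range t, w l * (q (Y l) / m w Y t (Y l)) ≤ 1 := by
    rw [← sum_fiberwise_of_maps_to (t := (range t).image Y) (g := Y) fun l => mem_image_of_mem Y]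
    refine le_trans (sum_le_sum fun y _ => ?_) (hs _)
    rw [sum_congr rfl (g := fun l => w l * (q y / m w Y t y)) fun l hl => by
      rw [(mem_filter.1 hl).2], ← sum_mul, sum_filter, ← m, mul_div_assoc', mul_comm, mul_div_assoc]
    exact mul_le_of_le_one_right (hq y).le (div_self_le_one _)
  have := sum_le_sum h1
  rw [sum_add_distrib, sum_sub_distrib, sum_sub_distrib, ← sum_mul, ← mul_sum, hM, ← G] at this
  nlinarith

omit hw in
theorem G_smul (c : ℝ) (hc : 0 < c) (hw : ∀ l, 0 ≤ w l) (t : ℕ) :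
    G (fun l => c * w l) Y t = c * (G w Y t + (∑ l ∈ range t, w l) * Real.log c) := by
  rw [G, G, sum_mul, ← sum_add_distrib, mul_sum]
  refine sum_congr rfl fun l hl => ?_
  rcases (hw l).eq_or_lt with e | e
  · simp [← e]
  have : m (fun l => c * w l) Y t (Y l) = c * m w Y t (Y l) := by simp [m, mul_sum]
  rw [this, Real.log_mul hc.ne' (e.trans_le (le_m hw Y (mem_range.1 hl))).ne']
  ring

omit hw in
theorem total {ι κ : Type} [Fintype ι] [Fintype κ] [Nonempty ι] (hw : ∀ l, 0 ≤ w l)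
    (P : ι → ℕ → ℕ) (S : κ → ℕ → ℕ)
    (H : ∀ (t : ℕ) (v : ℕ → ℝ), (∀ l, 0 ≤ v l) → ∑ l ∈ range t, v l = 1 →
      ∑ j, G v (S j) t ≤ ∑ i, G v (P i) t)
    (q : ℕ → ℝ) (hq : ∀ y, 0 < q y) (hs : ∀ s : Finset ℕ, ∑ y ∈ s, q y ≤ 1)
    (h : ∀ l, 0 < w l → (∏ i, m w (P i) (l + 1) (P i l)) * 4 ^ Fintype.card ι ≤ ∏ j, q (S j l))
    (t : ℕ) : ∑ l ∈ range t, w l ≤ 1 := by
  by_contra hc
  push Not at hc
  obtain ⟨M, hM⟩ : ∃ M, ∑ l ∈ range t, w l = M := ⟨_, rfl⟩
  rw [hM] at hc
  have h0 : 0 < M := by linarith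
  have h1 := H t (fun l => M⁻¹ * w l) (fun l => mul_nonneg (by positivity) (hw l))
    (by rw [← mul_sum, hM, inv_mul_cancel₀ h0.ne'])
  simp only [G_smul _ _ (inv_pos.2 h0) hw, ← mul_sum, hM, Real.log_inv] at h1
  replace h1 := le_of_mul_le_mul_left h1 (inv_pos.2 h0)
  have h2 := sum_le_sum (s := univ) fun j _ => gibbs hw (S j) q hq hs t M hM h0
  have h3 := sum_le_sum (s := univ) fun i _ => pot hw (P i) t
  have h4 : ∀ l ∈ range t, ∑ i, w l * Real.log (m w (P i) (l + 1) (P i l)) +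
      w l * (Fintype.card ι * Real.log 4) ≤ ∑ j, w l * Real.log (q (S j l)) := by
    intro l _
    rcases (hw l).eq_or_lt with e | e
    · simp [← e]
    have h5 := fun i => e.trans_le (le_m hw (P i) (Nat.lt_succ_self l))
    have h6 := prod_pos (s := univ) fun i _ => h5 i
    have := Real.log_le_log (by positivity) (h l e)
    rw [Real.log_mul h6.ne' (by positivity), Real.log_prod fun i _ => (h5 i).ne',
      Real.log_prod fun j _ => (hq _).ne', Real.log_pow] at this
    rw [← mul_sum, ← mul_sum, ← mul_add]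
    exact mul_le_mul_of_nonneg_left this e.le
  have h5 := sum_le_sum h4
  rw [sum_add_distrib, sum_comm, sum_comm (s := range t), ← sum_mul, hM] at h5
  simp only [hM, sum_sub_distrib, sum_add_distrib, sum_const, card_univ, nsmul_eq_mul] at h1 h2 h3
  have h6 : (0 : ℝ) < Fintype.card ι := Nat.cast_pos.2 Fintype.card_pos
  have h7 := Real.log_pos hc
  have h8 : 1 < Real.log 4 := by
    rw [show (4 : ℝ) = 2 ^ 2 by norm_num, Real.log_pow]
    have := Real.log_two_gt_d9
    push_cast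
    linarith
  have : 0 < Fintype.card ι * M * (Real.log M + (Real.log 4 - 1)) := by
    have : 0 < Real.log 4 - 1 := by linarith
    positivity
  nlinarith

end Pool.Agent.H.MP_fd63cb_lc
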