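import Pool.Agent.H.MP_7216ee_lc.Ent

namespace Pool.Agent.H.MP_fd63cb_lc

open scoped ENNReal
open Pool.Agent.H.MP_7216ee_lc

section
variable {Ω : Type} {n : ℕ} (P : PMF Ω) (V : Ω → Fin n → ℕ)

noncomputable def h (S : Finset (Fin n)) : ℝ≥0∞ := E P fun ω (i : S) => V ω i

theorem h_sub (S T U W : Finset (Fin n)) (h1 : U ⊆ S ∪ T) (h2 : W ⊆ S ∩ T) :
    h P V U + h P V W ≤ h P V S + h P V T := by
  refine le_trans (add_le_add (E_le P ?_) le_rfl) (E_sub P _ _ _ ?_ ?_)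
  · intro ω ω' _ _ e
    funext i
    rcases Finset.mem_union.1 (h1 i.2) with c | c
    exacts [congrFun (congrArg Prod.fst e) ⟨i, c⟩, congrFun (congrArg Prod.snd e) ⟨i, c⟩]
  · exact fun ω ω' e => funext fun i => congrFun e ⟨i, (Finset.mem_inter.1 (h2 i.2)).1⟩
  · exact fun ω ω' e => funext fun i => congrFun e ⟨i, (Finset.mem_inter.1 (h2 i.2)).2⟩

theorem r_sub (this : ∀ S, h P V S ≠ ⊤) (S T U W : Finset (Fin n))
    (h1 : U ⊆ S ∪ T ∧ W ⊆ S ∩ T) :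
    (h P V U).toReal + (h P V W).toReal ≤ (h P V S).toReal + (h P V T).toReal := by
  rw [← ENNReal.toReal_add (this _) (this _), ← ENNReal.toReal_add (this _) (this _)]
  exact ENNReal.toReal_mono (ENNReal.add_ne_top.2 ⟨this _, this _⟩) (h_sub P V S T U W h1.1 h1.2)

theorem E_top {α : Type} (hP : P.support.Finite) (X : Ω → α) : E P X ≠ ⊤ := by
  rw [E, tsum_eq_sum (s := hP.toFinset) fun ω hω => by
    rw [(P.apply_eq_zero_iff ω).2 (by simpa using hω), zero_mul]]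
  exact ENNReal.sum_ne_top.2 fun ω _ => ENNReal.mul_ne_top (P.apply_ne_top ω) ENNReal.ofReal_ne_top

end

def W (x : Fin 4 → ℕ) : ℕ × ℕ := (x 2, x 3)

def V (q : (Fin 4 → ℕ) × (Fin 4 → ℕ)) : Fin 5 → ℕ := ![q.1 0, q.2 0, q.2 1, q.1 2, q.1 3]

def φ : Fin 5 → Fin 4 := ![0, 0, 1, 2, 3]

theorem h_congr {Ω : Type} (Q : PMF Ω) (A : Ω → Fin 5 → ℕ) (B : Ω → Fin 4 → ℕ) (S T)
    (h1 : S.image φ = T) (h2 : ∀ ω, Q ω ≠ 0 → ∀ i ∈ S, A ω i = B ω (φ i)) : h Q A S = h Q B T := by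
  subst h1
  refine le_antisymm (E_le _ fun q q' c c' e => funext fun i => ?_)
    (E_le _ fun q q' c c' e => funext fun ⟨j, hj⟩ => ?_)
  · rw [h2 _ c _ i.2, h2 _ c' _ i.2]
    exact congrFun e ⟨_, Finset.mem_image_of_mem φ i.2⟩
  · obtain ⟨i, hi, rfl⟩ := Finset.mem_image.1 hj
    exact (h2 _ c _ hi).symm.trans ((congrFun e ⟨i, hi⟩).trans (h2 _ c' _ hi))

theorem tr1 (P : PMF (Fin 4 → ℕ)) (S T) (hS : S.image φ = T ∧ 1 ∉ S ∧ 2 ∉ S) :
    h (copy P W) V S = h P id T := by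
  refine (h_congr _ _ Prod.fst S T hS.1 fun q _ i hi => ?_).trans (E_fst P W fun x (i : T) => x i)
  fin_cases i
  exacts [rfl, absurd hi hS.2.1, absurd hi hS.2.2, rfl, rfl]

theorem V_snd {P : PMF (Fin 4 → ℕ)} {q} (hq : copy P W q ≠ 0) (i : Fin 5) (hi : i ≠ 0) :
    V q i = q.2 (φ i) := by
  have := (copy_supp hq).2.2
  simp only [W, Prod.mk.injEq] at this
  fin_cases i
  exacts [absurd rfl hi, rfl, rfl, this.1, this.2]

theorem tr2 (P : PMF (Fin 4 → ℕ)) (S T) (hS : S.image φ = T ∧ 0 ∉ S) :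
    h (copy P W) V S = h P id T :=
  (h_congr _ _ Prod.snd S T hS.1 fun _ c i hi => V_snd c i fun e => hS.2 (e ▸ hi)).trans
    (E_snd P W fun x (i : T) => x i)

theorem ci (P : PMF (Fin 4 → ℕ)) :
    h P id {0, 2, 3} + h P id {0, 1, 2, 3} ≤ h (copy P W) V {0, 1, 2, 3, 4} + h P id {2, 3} := by
  refine (E_copy P W _ _ fun x y e => ?_).trans (add_le_add (E_le _ fun q q' c c' e => ?_)
    (E_le _ fun x y _ _ e => ?_))
  · exact Prod.ext (congrFun e ⟨2, by simp⟩) (congrFun e ⟨3, by simp⟩)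
  · have e0 := congrFun e ⟨0, by simp⟩
    have e1 := congrFun e ⟨1, by simp⟩
    have e2 := congrFun e ⟨2, by simp⟩
    have e3 := congrFun e ⟨3, by simp⟩
    have e4 := congrFun e ⟨4, by simp⟩
    have e5 := (V_snd c 3 (by decide)).symm.trans (e3.trans (V_snd c' 3 (by decide)))
    have e6 := (V_snd c 4 (by decide)).symm.trans (e4.trans (V_snd c' 4 (by decide)))
    refine Prod.ext (funext fun ⟨i, hi⟩ => ?_) (funext fun ⟨i, hi⟩ => ?_) <;> fin_cases i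
    exacts [e0, absurd hi (by decide), e3, e4, e1, e2, e5, e6]
  · exact Prod.ext (congrFun e ⟨2, by simp⟩) (congrFun e ⟨3, by simp⟩)

theorem zy (P : PMF (Fin 4 → ℕ)) (hP : P.support.Finite) (f : Finset (Fin 4) → ℝ)
    (hf : ∀ S, f S = (h P id S).toReal) :
    0 ≤ -f {0} - 2 * f {2} - 2 * f {3} - f {0, 1} + 3 * f {0, 2} + 3 * f {0, 3} + f {1, 2} +
      f {1, 3} + 3 * f {2, 3} - 4 * f {0, 2, 3} - f {1, 2, 3} := by
  have hQ : ∀ S, h (copy P W) V S ≠ ⊤ := fun S => E_top _ ((hP.prod hP).subset fun q hq =>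
    ⟨(copy_supp hq).1, (copy_supp hq).2.1⟩) _
  have b := r_sub _ V hQ
  have t : ∀ S, h P id S ≠ ⊤ := fun S => E_top _ hP _
  have c := ENNReal.toReal_mono (ENNReal.add_ne_top.2 ⟨hQ _, t _⟩) (ci P)
  rw [ENNReal.toReal_add (t _) (t _), ENNReal.toReal_add (hQ _) (t _)] at c
  have b1 := b {0, 3} {2, 3} {0, 2, 3} {3} (by decide)
  have b2 := b {0, 4} {2, 4} {0, 2, 4} {4} (by decide)
  have b3 := b {0, 2, 3} {0, 2, 4} {0, 2, 3, 4} {0, 2} (by decide)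
  have b4 := b {0, 3} {1, 3} {0, 1, 3} {3} (by decide)
  have b5 := b {0, 4} {1, 4} {0, 1, 4} {4} (by decide)
  have b6 := b {0, 1, 3} {0, 1, 4} {0, 1, 3, 4} {0, 1} (by decide)
  have b7 := b {0, 2, 3, 4} {1, 2, 3, 4} {0, 1, 2, 3, 4} {2, 3, 4} (by decide)
  have b8 := b {0, 1, 3, 4} {1, 2, 3, 4} {0, 1, 2, 3, 4} {1, 3, 4} (by decide)
  have b9 := b {0, 1} {0, 2} {0, 1, 2} {0} (by decide)
  have b10 := b {0, 1, 2} {1, 2, 3, 4} {0, 1, 2, 3, 4} {1, 2} (by decide)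
  have c1 := congrArg ENNReal.toReal (tr1 P {0, 3} {0, 2} (by decide))
  have c2 := congrArg ENNReal.toReal (tr1 P {3} {2} (by decide))
  have c3 := congrArg ENNReal.toReal (tr1 P {0, 4} {0, 3} (by decide))
  have c4 := congrArg ENNReal.toReal (tr1 P {4} {3} (by decide))
  have c5 := congrArg ENNReal.toReal (tr1 P {0} {0} (by decide))
  have c6 := congrArg ENNReal.toReal (tr2 P {2, 3} {1, 2} (by decide))
  have c7 := congrArg ENNReal.toReal (tr2 P {2, 4} {1, 3} (by decide))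
  have c8 := congrArg ENNReal.toReal (tr2 P {1, 3} {0, 2} (by decide))
  have c9 := congrArg ENNReal.toReal (tr2 P {1, 4} {0, 3} (by decide))
  have c10 := congrArg ENNReal.toReal (tr2 P {1, 2, 3, 4} {0, 1, 2, 3} (by decide))
  have c11 := congrArg ENNReal.toReal (tr2 P {2, 3, 4} {1, 2, 3} (by decide))
  have c12 := congrArg ENNReal.toReal (tr2 P {1, 3, 4} {0, 2, 3} (by decide))
  have c13 := congrArg ENNReal.toReal (tr2 P {1, 2} {0, 1} (by decide))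
  simp only [hf]
  linear_combination b1 + b2 + b3 + b4 + b5 + b6 + b7 + b8 + b9 +
    b10 + 3 * c + 2 * c1 - 2 * c2 + 2 * c3 - 2 * c4 - c5 + c6 + c7 + c8 + c9 + 3 * c10 - c11 - c12 -
    c13

end Pool.Agent.H.MP_fd63cb_lc
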